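import Pool.Agent.Helper77.AA.Final

/-!
# MP_8096dd_al : `M ⊗ M*` for odd-dimensional modules of `2`-groups, almost all modules

`MRep r m K` is the type of homomorphisms of the elementary abelian group of order `2 ^ r` into the
`m × m` matrices over `K`, `bar ρ` the corresponding representation over the algebraic closure.
`Indec` is the hypothesis and `TrivPlusFour (tw _)` the conclusion of the frozen statement.
-/

namespace Pool.Agent.Results.MP_8096dd_al.AlmostAll

open H77CI H77AA

theorem result (r m : ℕ) (hr : 2 ≤ r) (hm : Odd m) :
    ∃ C : ℕ, ∀ (K : Type) [Field K] [Finite K] [CharP K 2],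
      Nat.card {ρ : MRep r m K // Indec (bar ρ) ∧ ¬ TrivPlusFour (tw (bar ρ))} *
          Nat.card K ^ 4 ≤
        C * Nat.card {ρ : MRep r m K // Indec (bar ρ)} :=
  almost_all r m hr hm

end Pool.Agent.Results.MP_8096dd_al.AlmostAll
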