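import Pool.Agent.Helper77.CI.Central

/-!
# MP_8096dd_al : direct summands of `M ⊗ M*` and central involutions
-/

open scoped TensorProduct

namespace Pool.Agent.Results.MP_8096dd_al.CentralInvolution

open H77CI

theorem result (G : Type) [Group G] (k : Type) [Field k] [IsAlgClosed k] [CharP k 2]
    (V : Type) [AddCommGroup V] [Module k V] [FiniteDimensional k V] (ρ : Representation k G V)
    (hodd : Odd (Module.finrank k V)) (hind : Indec ρ) (z : G) (hz : z ∈ Cen ρ)
    (hzz : ρ z * ρ z = 1) (A B : Submodule k (V ⊗[k] Module.Dual k V)) (hA : SInv (tw ρ) A)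
    (hB : SInv (tw ρ) B) (hAB : IsCompl A B) :
    ∃ m : ℕ, Module.finrank k A + rk (tw ρ) z A = 4 * m + nul (tw ρ) z A :=
  mod_four hodd hind hz hzz hA hB hAB

end Pool.Agent.Results.MP_8096dd_al.CentralInvolution
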