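import Pool.Agent.Helper77.GJ.Final

/-!
# MP_8096dd_al : `M ⊗ M*` for odd-dimensional modules of `2`-groups, generic Jordan type

`TrivPlusFour (tw ρ)` is the conclusion of the frozen statement, `Indec ρ` its hypothesis. The
theorem treats the modules on which some linear combination of `g - 1`, for `g` acting centrally
and with square one, has the maximal possible rank.
-/

namespace Pool.Agent.Results.MP_8096dd_al.GenericType

open H77CI H77GJ

theorem result (G : Type) [Group G] (k : Type) [Field k] [IsAlgClosed k] [CharP k 2]
    (V : Type) [AddCommGroup V] [Module k V] [FiniteDimensional k V]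
    (ρ : Representation k G V) (hodd : Odd (Module.finrank k V)) (hind : Indec ρ)
    (J : Type) [Fintype J] (g : J → G) (hg : ∀ j, g j ∈ Cen ρ)
    (hgg : ∀ j, ρ (g j) * ρ (g j) = 1) (c : J → k)
    (hc : 2 * Module.finrank k (LinearMap.range (comb ρ g c)) + 1 = Module.finrank k V) :
    TrivPlusFour (tw ρ) :=
  decomposes_of_generic ρ hodd hind g hg hgg c hc

end Pool.Agent.Results.MP_8096dd_al.GenericType
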