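import Pool.Agent.Helper77.CI.Final

/-!
# MP_8096dd_al : `M ⊗ M*` for odd-dimensional modules of `2`-groups, towers of central involutions

`TrivPlusFour (tw ρ)` is the conclusion of the frozen statement, `Indec ρ` its hypothesis.
-/

namespace Pool.Agent.Results.MP_8096dd_al.Towers

open H77CI

theorem result (G : Type) [Group G] [Finite G] (hG : IsPGroup 2 G)
    (k : Type) [Field k] [IsAlgClosed k] [CharP k 2]
    (V : Type) [AddCommGroup V] [Module k V] [FiniteDimensional k V]
    (ρ : Representation k G V) (hodd : Odd (Module.finrank k V)) (hind : Indec ρ)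
    (hT : Tower k G (Cen ρ) V ρ) : TrivPlusFour (tw ρ) :=
  decomposes_of_tower hG hodd hind hT

end Pool.Agent.Results.MP_8096dd_al.Towers
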